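import Pool.Agent.Lib.MP_7682a8_an.KB.Iface

/-! MP_7682a8_an, project KB, module ASB: the boundary term at the origin tends to zero. -/

set_option autoImplicit false

open Metric Set MeasureTheory Filter
open scoped Topology

namespace Pool.Agent.Lib.MP_7682a8_an.KB.H44

theorem asb (hA : AsyStmt) : AsbStmt := by
  intro h g δ ξ R hom hbr hR
  obtain ⟨hq, -, -⟩ := hA h g δ ξ hom hbr
  have hδ : 0 < δ := hom.pos
  have hqn : Tendsto (fun z => ‖qq ξ z / z‖) (𝓝[≠] (0:ℂ)) (𝓝 ‖(1 / (4 * (δ : ℂ)))‖) := hq.norm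
  have hval : ‖(1 / (4 * (δ : ℂ)))‖ = 1 / (4 * δ) := by
    rw [norm_div, norm_mul]; simp [abs_of_pos hδ]
  rw [hval] at hqn
  have e1 : 1 / (8 * δ) < 1 / (4 * δ) := one_div_lt_one_div_of_lt (by positivity) (by linarith)
  have e2 : 1 / (4 * δ) < 1 / (2 * δ) := one_div_lt_one_div_of_lt (by positivity) (by linarith)
  have hlow : ∀ᶠ z in 𝓝[≠] (0:ℂ), 1 / (8 * δ) < ‖qq ξ z / z‖ := hqn.eventually (lt_mem_nhds e1)
  have hup : ∀ᶠ z in 𝓝[≠] (0:ℂ), ‖qq ξ z / z‖ < 1 / (2 * δ) := hqn.eventually (gt_mem_nhds e2)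
  have hga : DifferentiableAt ℂ (deriv g) 0 :=
    ((hom.dg.analyticOnNhd isOpen_ball).deriv 0 (by simp)).differentiableAt
  have hO : (deriv g) =O[𝓝 0] (fun z : ℂ => z) := by
    have := hga.isBigO_sub
    simpa [hom.g1] using this
  obtain ⟨C, hC0, hC⟩ := hO.exists_pos
  have hCb := (Asymptotics.isBigOWith_iff.1 hC)
  have hall : ∀ᶠ z in 𝓝[≠] (0:ℂ), 1 / (8 * δ) < ‖qq ξ z / z‖ ∧ ‖qq ξ z / z‖ < 1 / (2 * δ) ∧
      ‖deriv g z‖ ≤ C * ‖z‖ :=
    hlow.and (hup.and (hCb.filter_mono nhdsWithin_le_nhds))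
  rw [eventually_nhdsWithin_iff, Metric.eventually_nhds_iff] at hall
  obtain ⟨r, hr, hall⟩ := hall
  -- the majorant
  set B : ℝ → ℝ := fun ε => 2 * Real.pi * (C * ((1 + ε ^ 2 / R ^ 2) * (4 * δ) * ε +
    4 * (ε * |ε * Real.log R - ε * Real.log ε|) + 5 / 2 * (1 / (2 * δ)) * (R ^ 2 + ε ^ 2) * ε))
    with hB
  have hBc : Continuous B := by
    have h1 : Continuous (fun x : ℝ => x * Real.log x) := Real.continuous_mul_log
    have h2 : Continuous (fun x : ℝ => |x * Real.log R - x * Real.log x|) :=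
      ((continuous_id.mul continuous_const).sub h1).abs
    simp only [hB]
    fun_prop
  have hB0 : B 0 = 0 := by simp [hB]
  have hBt : Tendsto B (𝓝[>] (0:ℝ)) (𝓝 0) := by
    have := (hBc.tendsto 0).mono_left (nhdsWithin_le_nhds (s := Ioi (0:ℝ)))
    rwa [hB0] at this
  refine squeeze_zero_norm' ?_ hBt
  have hmem : ∀ᶠ ε in 𝓝[>] (0:ℝ), 0 < ε ∧ ε < r := by
    filter_upwards [Ioo_mem_nhdsGT hr] with ε hε using hε
  filter_upwards [hmem] with ε hε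
  obtain ⟨hε0, hεr⟩ := hε
  have key : ∀ θ : ℝ, ‖starRingEnd ℂ (circleMap 0 ε θ * deriv g (circleMap 0 ε θ)) *
      YY R ε (qq ξ (circleMap 0 ε θ))‖ ≤ C * ((1 + ε ^ 2 / R ^ 2) * (4 * δ) * ε +
    4 * (ε * |ε * Real.log R - ε * Real.log ε|) + 5 / 2 * (1 / (2 * δ)) * (R ^ 2 + ε ^ 2) * ε) := by
    intro θ
    set z := circleMap 0 ε θ with hz
    have hzn : ‖z‖ = ε := by rw [hz, norm_circleMap_zero, abs_of_pos hε0]
    have hz0 : z ≠ 0 := by
      intro h0; rw [h0, norm_zero] at hzn; linarith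
    obtain ⟨a1, a2, a3⟩ := hall (y := z) (by rw [dist_zero_right, hzn]; exact hεr) hz0
    rw [norm_div, hzn] at a1 a2
    rw [hzn] at a3
    have b1 : 1 / (8 * δ) * ε < ‖qq ξ z‖ := (lt_div_iff₀ hε0).1 a1
    have b2 : ‖qq ξ z‖ < 1 / (2 * δ) * ε := (div_lt_iff₀ hε0).1 a2
    have b0 : 0 < ‖qq ξ z‖ := lt_trans (by positivity) b1
    have n1 : ‖starRingEnd ℂ (z * deriv g z)‖ ≤ C * ε ^ 2 := by
      rw [RCLike.norm_conj, norm_mul, hzn]
      calc ε * ‖deriv g z‖ ≤ ε * (C * ε) := by gcongr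
        _ = C * ε ^ 2 := by ring
    have t1 : ‖(((1 - ε ^ 2 / R ^ 2) / 2 : ℝ) : ℂ) / qq ξ z‖ ≤ (1 + ε ^ 2 / R ^ 2) * (4 * δ) / ε := by
      rw [norm_div, Complex.norm_real, Real.norm_eq_abs, div_le_div_iff₀ b0 hε0]
      have h1 : |(1 - ε ^ 2 / R ^ 2) / 2| ≤ (1 + ε ^ 2 / R ^ 2) / 2 := by
        rw [abs_le]
        have : 0 ≤ ε ^ 2 / R ^ 2 := by positivity
        constructor <;> linarith
      have h2 : ε ≤ 8 * δ * ‖qq ξ z‖ := by
        have := b1.le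
        rw [div_mul_eq_mul_div, one_mul, div_le_iff₀ (by positivity)] at this
        linarith
      have h3 : 0 ≤ (1 + ε ^ 2 / R ^ 2) / 2 := by positivity
      calc |(1 - ε ^ 2 / R ^ 2) / 2| * ε ≤ (1 + ε ^ 2 / R ^ 2) / 2 * (8 * δ * ‖qq ξ z‖) := by
            gcongr
        _ = (1 + ε ^ 2 / R ^ 2) * (4 * δ) * ‖qq ξ z‖ := by ring
    have t2 : ‖((4 * Real.log (R / ε) : ℝ) : ℂ)‖ ≤ 4 * (|ε * Real.log R - ε * Real.log ε| / ε) := by
      rw [Complex.norm_real, Real.norm_eq_abs, abs_mul, abs_of_pos (by norm_num : (0:ℝ) < 4)]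
      rw [Real.log_div hR.ne' hε0.ne', ← mul_sub, abs_mul, abs_of_pos hε0, mul_div_cancel_left₀ _ hε0.ne']
    have t3 : ‖((5 / 2 * (R ^ 2 / ε ^ 2 - 1) : ℝ) : ℂ) * qq ξ z‖ ≤
        5 / 2 * (R ^ 2 / ε ^ 2 + 1) * (1 / (2 * δ) * ε) := by
      rw [norm_mul, Complex.norm_real, Real.norm_eq_abs]
      have h1 : |5 / 2 * (R ^ 2 / ε ^ 2 - 1)| ≤ 5 / 2 * (R ^ 2 / ε ^ 2 + 1) := by
        rw [abs_le]
        have : 0 ≤ R ^ 2 / ε ^ 2 := by positivity
        constructor <;> linarith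
      exact mul_le_mul h1 b2.le b0.le (by positivity)
    have nY : ‖YY R ε (qq ξ z)‖ ≤ (1 + ε ^ 2 / R ^ 2) * (4 * δ) / ε +
        4 * (|ε * Real.log R - ε * Real.log ε| / ε) +
        5 / 2 * (R ^ 2 / ε ^ 2 + 1) * (1 / (2 * δ) * ε) := by
      unfold YY
      refine (norm_add_le _ _).trans (add_le_add ((norm_sub_le _ _).trans (add_le_add t1 t2)) t3)
    rw [norm_mul]
    calc ‖starRingEnd ℂ (z * deriv g z)‖ * ‖YY R ε (qq ξ z)‖
        ≤ C * ε ^ 2 * ((1 + ε ^ 2 / R ^ 2) * (4 * δ) / ε +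
        4 * (|ε * Real.log R - ε * Real.log ε| / ε) +
        5 / 2 * (R ^ 2 / ε ^ 2 + 1) * (1 / (2 * δ) * ε)) := by
          exact mul_le_mul n1 nY (norm_nonneg _) (by positivity)
      _ = _ := by
          field_simp
  have := intervalIntegral.norm_integral_le_of_norm_le_const (a := (0:ℝ)) (b := 2 * Real.pi)
    (f := fun θ => starRingEnd ℂ (circleMap 0 ε θ * deriv g (circleMap 0 ε θ)) *
      YY R ε (qq ξ (circleMap 0 ε θ))) (fun θ _ => key θ)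
  rw [sub_zero, abs_of_pos (by positivity : (0:ℝ) < 2 * Real.pi)] at this
  calc _ ≤ _ := this
    _ = B ε := by simp only [hB]; ring

end Pool.Agent.Lib.MP_7682a8_an.KB.H44
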